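import Mathlib

/-!
# Edge blow-ups of `C_4` and of the path with four edges: the extremal graph is not unique

Let `k = 4`, so `t_k = 2`, and let `n = 2m + 1`. The conjectured unique extremal graph `H⁺(n, 2, 2)` is
the join of one vertex with `K_{m,m}` plus an edge inside a part. It has `m² + m + 1` triangles. The join
of one vertex with `K_{m-1,m+1}` plus an edge inside the smaller part is not isomorphic to it, but it has
the same number of triangles and it contains neither the edge blow-up of `C_4` nor the one of the path with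
four edges.
-/

set_option autoImplicit false

namespace Pool.Agent.Results.MP_5b3c48_co.NotUnique

open SimpleGraph

/-- The edge blow-up `H³`: each edge `uv` is replaced by a triangle `u v w_{uv}`. -/
def edgeBlowUp {V : Type} (H : SimpleGraph V) : SimpleGraph (V ⊕ H.edgeSet) where
  Adj x y := match x, y with
    | Sum.inl u, Sum.inl v => H.Adj u v
    | Sum.inl u, Sum.inr e => u ∈ (e : Sym2 V)
    | Sum.inr e, Sum.inl u => u ∈ (e : Sym2 V)
    | Sum.inr _, Sum.inr _ => False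
  symm := ⟨by
    rintro (u | e) (v | f) h
    · exact SimpleGraph.Adj.symm (G := H) h
    · exact h
    · exact h
    · exact h⟩
  loopless := ⟨by
    rintro (u | e) h
    · exact H.loopless.irrefl _ h
    · exact h⟩

/-- The number of triangles (copies of `K_3`) of a graph. -/
noncomputable def triangles {V : Type} (G : SimpleGraph V) : ℕ :=
  Nat.card {s : Finset V // G.IsNClique 3 s}

/-- The join of a complete graph on `s` vertices with the complete bipartite graph `K_{a,b}`. -/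
def joinBip (s a b : ℕ) : SimpleGraph (Fin s ⊕ (Fin a ⊕ Fin b)) where
  Adj x y := x ≠ y ∧ ¬ (∃ i j, x = Sum.inr (Sum.inl i) ∧ y = Sum.inr (Sum.inl j)) ∧
    ¬ (∃ i j, x = Sum.inr (Sum.inr i) ∧ y = Sum.inr (Sum.inr j))
  symm := ⟨by
    rintro x y ⟨h1, h2, h3⟩
    exact ⟨h1.symm, fun ⟨i, j, hi, hj⟩ => h2 ⟨j, i, hj, hi⟩, fun ⟨i, j, hi, hj⟩ => h3 ⟨j, i, hj, hi⟩⟩⟩
  loopless := ⟨fun x h => h.1 rfl⟩

/-- `H(n, 2, t)`: the join of `K_{t-1}` with the balanced complete bipartite graph on the other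
`n - t + 1` vertices. -/
def H₂ (n t : ℕ) : SimpleGraph (Fin (t - 1) ⊕ (Fin ((n - t + 1) / 2) ⊕ Fin ((n - t + 2) / 2))) :=
  joinBip (t - 1) ((n - t + 1) / 2) ((n - t + 2) / 2)

/-- `x` and `y` are different vertices in the same one of the two parts. -/
def SamePart {s a b : ℕ} (x y : Fin s ⊕ (Fin a ⊕ Fin b)) : Prop :=
  x ≠ y ∧ ((∃ i j, x = Sum.inr (Sum.inl i) ∧ y = Sum.inr (Sum.inl j)) ∨
    (∃ i j, x = Sum.inr (Sum.inr i) ∧ y = Sum.inr (Sum.inr j)))

/-- `G₀` is (up to isomorphism) the unique graph with the largest number of triangles among the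
`F`-free graphs on `n` vertices. -/
def IsUniqueExtremal {W V : Type} (n : ℕ) (F : SimpleGraph W) (G₀ : SimpleGraph V) : Prop :=
  F.Free G₀ ∧ ∀ G : SimpleGraph (Fin n), F.Free G →
    triangles G ≤ triangles G₀ ∧ (triangles G = triangles G₀ → Nonempty (G ≃g G₀))

/-- The statement of Q1: for `k ≥ 4`, `t = ⌊(k-1)/2⌋ + 1` and large `n`, the graph `H(n, 2, t)` for odd
`k`, resp. the graph `H⁺(n, 2, t)` obtained by adding an edge inside one of the two parts for even `k`,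
is the unique extremal graph for the edge blow-ups of `C_k` and of the path with `k` edges. -/
def Q1 : Prop :=
  ∀ k : ℕ, 4 ≤ k → ∃ n₀ : ℕ, ∀ n : ℕ, n₀ ≤ n →
    (Odd k →
      IsUniqueExtremal n (edgeBlowUp (cycleGraph k)) (H₂ n ((k - 1) / 2 + 1)) ∧
      IsUniqueExtremal n (edgeBlowUp (pathGraph (k + 1))) (H₂ n ((k - 1) / 2 + 1))) ∧
    (Even k → ∃ x y, SamePart x y ∧
      IsUniqueExtremal n (edgeBlowUp (cycleGraph k)) (H₂ n ((k - 1) / 2 + 1) ⊔ edge x y) ∧
      IsUniqueExtremal n (edgeBlowUp (pathGraph (k + 1))) (H₂ n ((k - 1) / 2 + 1) ⊔ edge x y))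

/-! ### Invariance under isomorphisms -/

theorem clique_map {V W : Type} {G : SimpleGraph V} {G' : SimpleGraph W} (f : G ≃g G')
    {s : Finset V} (h : G.IsNClique 3 s) : G'.IsNClique 3 (s.map f.toEquiv.toEmbedding) := by
  rw [isNClique_iff] at h ⊢
  refine ⟨?_, by rw [Finset.card_map]; exact h.2⟩
  intro x hx y hy hxy
  simp only [Finset.coe_map, Equiv.coe_toEmbedding, Set.mem_image, Finset.mem_coe] at hx hy
  obtain ⟨a, ha, rfl⟩ := hx
  obtain ⟨b, hb, rfl⟩ := hy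
  exact f.map_rel_iff.2 (h.1 ha hb (fun hab => hxy (by rw [hab])))

theorem triangles_iso {V W : Type} {G : SimpleGraph V} {G' : SimpleGraph W} (f : G ≃g G') :
    triangles G = triangles G' := by
  unfold triangles
  refine Nat.card_congr (Equiv.ofBijective
    (fun s : {s : Finset V // G.IsNClique 3 s} =>
      (⟨s.1.map f.toEquiv.toEmbedding, clique_map f s.2⟩ : {s : Finset W // G'.IsNClique 3 s}))
    ⟨?_, ?_⟩)
  · intro s t h
    have h1 := congrArg Subtype.val h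
    exact Subtype.ext (Finset.map_injective _ h1)
  · intro t
    refine ⟨⟨t.1.map f.symm.toEquiv.toEmbedding, clique_map f.symm t.2⟩, ?_⟩
    apply Subtype.ext
    ext x
    simp only [Finset.mem_map, Equiv.coe_toEmbedding]
    constructor
    · rintro ⟨y, ⟨z, hz, rfl⟩, rfl⟩
      have : f.toEquiv (f.symm.toEquiv z) = z := f.apply_symm_apply z
      rwa [this]
    · intro hx
      exact ⟨f.symm.toEquiv x, ⟨x, hx, rfl⟩, f.apply_symm_apply x⟩

theorem free_iso {U V W : Type} {F : SimpleGraph U} {G : SimpleGraph V} {G' : SimpleGraph W}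
    (f : G ≃g G') (h : F.Free G) : F.Free G' := by
  rintro ⟨c⟩
  exact h ⟨(Copy.comp f.symm.toCopy c)⟩

/-- Moving a graph to `Fin n`. -/
theorem exists_fin {V : Type} [Fintype V] (G : SimpleGraph V) (n : ℕ) (h : Fintype.card V = n) :
    ∃ G' : SimpleGraph (Fin n), Nonempty (G ≃g G') := by
  have e : V ≃ Fin n := Fintype.equivFinOfCardEq h
  exact ⟨G.map e.toEmbedding, ⟨Iso.map e G⟩⟩

/-! ### The graphs `J a b p q` -/

/-- The join of one vertex with `K_{a,b}` plus the edge `p q` in the part of size `a`. -/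
def J (a b : ℕ) (p q : Fin a) : SimpleGraph (Fin 1 ⊕ (Fin a ⊕ Fin b)) :=
  joinBip 1 a b ⊔ edge (Sum.inr (Sum.inl p)) (Sum.inr (Sum.inl q))

theorem adj_cc {a b : ℕ} {p q : Fin a} (i j : Fin 1) :
    ¬ (J a b p q).Adj (Sum.inl i) (Sum.inl j) := by
  have : i = j := Subsingleton.elim i j
  subst this
  exact (J a b p q).loopless.irrefl _

theorem adj_ca {a b : ℕ} {p q : Fin a} (i : Fin 1) (z : Fin a ⊕ Fin b) :
    (J a b p q).Adj (Sum.inl i) (Sum.inr z) := by
  left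
  simp [joinBip]

theorem adj_ac {a b : ℕ} {p q : Fin a} (i : Fin 1) (z : Fin a ⊕ Fin b) :
    (J a b p q).Adj (Sum.inr z) (Sum.inl i) := (adj_ca i z).symm

theorem adj_ab {a b : ℕ} {p q : Fin a} (i : Fin a) (j : Fin b) :
    (J a b p q).Adj (Sum.inr (Sum.inl i)) (Sum.inr (Sum.inr j)) := by
  left
  simp [joinBip]

theorem adj_ba {a b : ℕ} {p q : Fin a} (i : Fin a) (j : Fin b) :
    (J a b p q).Adj (Sum.inr (Sum.inr j)) (Sum.inr (Sum.inl i)) := (adj_ab i j).symm

theorem adj_bb {a b : ℕ} {p q : Fin a} (i j : Fin b) :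
    ¬ (J a b p q).Adj (Sum.inr (Sum.inr i)) (Sum.inr (Sum.inr j)) := by
  simp [J, joinBip, edge_adj]

theorem adj_aa {a b : ℕ} {p q : Fin a} (hpq : p ≠ q) (i j : Fin a) :
    (J a b p q).Adj (Sum.inr (Sum.inl i)) (Sum.inr (Sum.inl j)) ↔
      (i = p ∧ j = q) ∨ (i = q ∧ j = p) := by
  simp only [J, joinBip, sup_adj, edge_adj]
  constructor
  · rintro (⟨-, h, -⟩ | ⟨h, -⟩)
    · exact absurd ⟨i, j, rfl, rfl⟩ h
    · simpa using h
  · rintro (⟨rfl, rfl⟩ | ⟨rfl, rfl⟩)
    · right; simp [hpq]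
    · right; simp [hpq.symm]

/-- Each triangle of `J` contains the apex or both ends of the extra edge. -/
theorem triangle_J {a b : ℕ} {p q : Fin a} (hpq : p ≠ q) {x y z : Fin 1 ⊕ (Fin a ⊕ Fin b)}
    (hxy : (J a b p q).Adj x y) (hxz : (J a b p q).Adj x z) (hyz : (J a b p q).Adj y z)
    (hx : x ≠ Sum.inl 0) (hy : y ≠ Sum.inl 0) (hz : z ≠ Sum.inl 0) :
    (x = Sum.inr (Sum.inl p) ∨ y = Sum.inr (Sum.inl p) ∨ z = Sum.inr (Sum.inl p)) ∧
    (x = Sum.inr (Sum.inl q) ∨ y = Sum.inr (Sum.inl q) ∨ z = Sum.inr (Sum.inl q)) := by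
  rcases x with i | i | i
  · exact absurd (by rw [Subsingleton.elim i 0]) hx
  · rcases y with j | j | j
    · exact absurd (by rw [Subsingleton.elim j 0]) hy
    · rw [adj_aa hpq] at hxy
      rcases hxy with ⟨rfl, rfl⟩ | ⟨rfl, rfl⟩ <;> simp
    · rcases z with k | k | k
      · exact absurd (by rw [Subsingleton.elim k 0]) hz
      · rw [adj_aa hpq] at hxz
        rcases hxz with ⟨rfl, rfl⟩ | ⟨rfl, rfl⟩ <;> simp
      · exact absurd hyz (adj_bb _ _)
  · rcases y with j | j | j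
    · exact absurd (by rw [Subsingleton.elim j 0]) hy
    · rcases z with k | k | k
      · exact absurd (by rw [Subsingleton.elim k 0]) hz
      · rw [adj_aa hpq] at hyz
        rcases hyz with ⟨rfl, rfl⟩ | ⟨rfl, rfl⟩ <;> simp
      · exact absurd hxz (adj_bb _ _)
    · exact absurd hxy (adj_bb _ _)

/-! ### `J` is free of the two blow-ups -/

/-- The vertices of the triangle of `H³` that belongs to the edge `e`. -/
def tri {V : Type} {H : SimpleGraph V} (e : H.edgeSet) (z : V ⊕ H.edgeSet) : Prop :=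
  z = Sum.inr e ∨ ∃ u ∈ (e : Sym2 V), z = Sum.inl u

theorem free_J {V : Type} (H : SimpleGraph V)
    (hH : ∀ z : V ⊕ H.edgeSet, ∃ e f : H.edgeSet, e ≠ f ∧ ¬ tri e z ∧ ¬ tri f z)
    (h0 : Nonempty V) {a b : ℕ} {p q : Fin a} (hpq : p ≠ q) : (edgeBlowUp H).Free (J a b p q) := by
  rintro ⟨c⟩
  -- a vertex `z` such that all others avoid the apex
  obtain ⟨z, hz⟩ : ∃ z : V ⊕ H.edgeSet, ∀ w, c w = Sum.inl 0 → w = z := by
    by_cases h : ∃ z, c z = Sum.inl 0
    · obtain ⟨z, hz⟩ := h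
      exact ⟨z, fun w hw => c.injective (hw.trans hz.symm)⟩
    · exact ⟨Sum.inl (Classical.arbitrary V), fun w hw => absurd ⟨w, hw⟩ h⟩
  obtain ⟨e, f, hef, he, hf⟩ := hH z
  have key : ∀ g : H.edgeSet, ¬ tri g z → ∃ x y, tri g x ∧ tri g y ∧
      c x = Sum.inr (Sum.inl p) ∧ c y = Sum.inr (Sum.inl q) := by
    rintro ⟨g, hg⟩ hgz
    induction g using Sym2.ind with
    | _ u v =>
      have huv : H.Adj u v := hg
      set g' : H.edgeSet := ⟨s(u, v), hg⟩
      have t1 : tri g' (Sum.inl u) := Or.inr ⟨u, by simp [g'], rfl⟩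
      have t2 : tri g' (Sum.inl v) := Or.inr ⟨v, by simp [g'], rfl⟩
      have t3 : tri g' (Sum.inr g') := Or.inl rfl
      have a1 : (edgeBlowUp H).Adj (Sum.inl u) (Sum.inl v) := huv
      have a2 : (edgeBlowUp H).Adj (Sum.inl u) (Sum.inr g') := by
        show u ∈ (g' : Sym2 V)
        simp [g']
      have a3 : (edgeBlowUp H).Adj (Sum.inl v) (Sum.inr g') := by
        show v ∈ (g' : Sym2 V)
        simp [g']
      have hh := triangle_J hpq (c.toHom.map_rel a1) (c.toHom.map_rel a2) (c.toHom.map_rel a3)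
        (fun h => hgz (hz _ h ▸ t1)) (fun h => hgz (hz _ h ▸ t2)) (fun h => hgz (hz _ h ▸ t3))
      obtain ⟨h1, h2⟩ := hh
      have g1 : ∃ x, tri g' x ∧ c x = Sum.inr (Sum.inl p) := by
        rcases h1 with h | h | h
        exacts [⟨_, t1, h⟩, ⟨_, t2, h⟩, ⟨_, t3, h⟩]
      have g2 : ∃ x, tri g' x ∧ c x = Sum.inr (Sum.inl q) := by
        rcases h2 with h | h | h
        exacts [⟨_, t1, h⟩, ⟨_, t2, h⟩, ⟨_, t3, h⟩]
      obtain ⟨x, hx, hx'⟩ := g1
      obtain ⟨y, hy, hy'⟩ := g2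
      exact ⟨x, y, hx, hy, hx', hy'⟩
  obtain ⟨x, y, hx, hy, hx1, hy1⟩ := key e he
  obtain ⟨x', y', hx', hy', hx2, hy2⟩ := key f hf
  have ex : x' = x := c.injective (hx2.trans hx1.symm)
  have ey : y' = y := c.injective (hy2.trans hy1.symm)
  subst ex
  subst ey
  have hxy : x' ≠ y' := by
    rintro rfl
    rw [hx1] at hy1
    simp only [Sum.inr.injEq, Sum.inl.injEq] at hy1
    exact hpq hy1
  have com : ∀ w, tri e w → tri f w → ∃ u, u ∈ (e : Sym2 V) ∧ u ∈ (f : Sym2 V) ∧ w = Sum.inl u := by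
    rintro w (rfl | ⟨u, hu, rfl⟩) (h | ⟨u', hu', h⟩)
    · exact absurd (Sum.inr_injective h) hef
    · simp at h
    · simp at h
    · have : u = u' := Sum.inl_injective h
      subst this
      exact ⟨u, hu, hu', rfl⟩
  obtain ⟨u, hue, huf, rfl⟩ := com _ hx hx'
  obtain ⟨v, hve, hvf, rfl⟩ := com _ hy hy'
  have huv : u ≠ v := fun h => hxy (by rw [h])
  apply hef
  apply Subtype.ext
  rw [(Sym2.mem_and_mem_iff huv).1 ⟨hue, hve⟩, (Sym2.mem_and_mem_iff huv).1 ⟨huf, hvf⟩]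

theorem four_edges {V : Type} (H : SimpleGraph V) (v : Fin 5 → V)
    (hadj : ∀ i : Fin 4, H.Adj (v i.castSucc) (v i.succ))
    (hinj : ∀ i j : Fin 5, v i = v j → i = j ∨ (i = 0 ∧ j = 4) ∨ (i = 4 ∧ j = 0)) :
    ∀ z : V ⊕ H.edgeSet, ∃ e f : H.edgeSet, e ≠ f ∧ ¬ tri e z ∧ ¬ tri f z := by
  set E : Fin 4 → H.edgeSet := fun i => ⟨s(v i.castSucc, v i.succ), hadj i⟩ with hE
  have hEmem : ∀ (i : Fin 4) (u : V), u ∈ (E i : Sym2 V) ↔ u = v i.castSucc ∨ u = v i.succ := by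
    intro i u
    simp [hE]
  have hEne : ∀ i j : Fin 4, i ≠ j → E i ≠ E j := by
    intro i j hij h
    have h1 : v i.castSucc ∈ (E j : Sym2 V) := by rw [← h, hEmem]; exact Or.inl rfl
    have h2 : v i.succ ∈ (E j : Sym2 V) := by rw [← h, hEmem]; exact Or.inr rfl
    rw [hEmem] at h1 h2
    have key : ∀ i j : Fin 4, i ≠ j →
        ((i.castSucc = j.castSucc ∨ (i.castSucc = 0 ∧ j.castSucc = 4) ∨
            (i.castSucc = 4 ∧ j.castSucc = 0)) ∨
          (i.castSucc = j.succ ∨ (i.castSucc = 0 ∧ j.succ = 4) ∨ (i.castSucc = 4 ∧ j.succ = 0))) →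
        ((i.succ = j.castSucc ∨ (i.succ = 0 ∧ j.castSucc = 4) ∨ (i.succ = 4 ∧ j.castSucc = 0)) ∨
          (i.succ = j.succ ∨ (i.succ = 0 ∧ j.succ = 4) ∨ (i.succ = 4 ∧ j.succ = 0))) → False := by
      decide
    exact key i j hij (h1.imp (hinj _ _) (hinj _ _)) (h2.imp (hinj _ _) (hinj _ _))
  -- among the four edges at most two contain a given vertex
  have two : ∀ z : V ⊕ H.edgeSet, ∃ i j : Fin 4, i ≠ j ∧ ¬ tri (E i) z ∧ ¬ tri (E j) z := by
    rintro (u | g)
    · have ht : ∀ i, tri (E i) (Sum.inl u : V ⊕ H.edgeSet) ↔ u = v i.castSucc ∨ u = v i.succ := by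
        intro i
        unfold tri
        constructor
        · rintro (h | ⟨w, hw, h⟩)
          · simp at h
          · rw [Sum.inl_injective h, ← hEmem]; exact hw
        · intro h
          exact Or.inr ⟨u, (hEmem i u).2 h, rfl⟩
      simp only [ht]
      by_cases hu : ∃ a : Fin 5, u = v a
      · obtain ⟨a, rfl⟩ := hu
        have key : ∀ a : Fin 5, ∃ i j : Fin 4, i ≠ j ∧
            ¬ ((a = i.castSucc ∨ (a = 0 ∧ i.castSucc = 4) ∨ (a = 4 ∧ i.castSucc = 0)) ∨
              (a = i.succ ∨ (a = 0 ∧ i.succ = 4) ∨ (a = 4 ∧ i.succ = 0))) ∧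
            ¬ ((a = j.castSucc ∨ (a = 0 ∧ j.castSucc = 4) ∨ (a = 4 ∧ j.castSucc = 0)) ∨
              (a = j.succ ∨ (a = 0 ∧ j.succ = 4) ∨ (a = 4 ∧ j.succ = 0))) := by
          decide
        obtain ⟨i, j, hij, h1, h2⟩ := key a
        exact ⟨i, j, hij, fun h => h1 (h.imp (hinj _ _) (hinj _ _)),
          fun h => h2 (h.imp (hinj _ _) (hinj _ _))⟩
      · push Not at hu
        exact ⟨0, 1, by decide, fun h => h.elim (hu _) (hu _), fun h => h.elim (hu _) (hu _)⟩
    · have ht : ∀ i, tri (E i) (Sum.inr g : V ⊕ H.edgeSet) → g = E i := by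
        rintro i (h | ⟨w, hw, h⟩)
        · exact Sum.inr_injective h
        · simp at h
      by_cases h0 : g = E 0 ∨ g = E 1
      · refine ⟨2, 3, by decide, fun h => ?_, fun h => ?_⟩
        · have h2 := ht _ h
          rcases h0 with h0 | h0
          · exact hEne 0 2 (by decide) (h0.symm.trans h2)
          · exact hEne 1 2 (by decide) (h0.symm.trans h2)
        · have h2 := ht _ h
          rcases h0 with h0 | h0
          · exact hEne 0 3 (by decide) (h0.symm.trans h2)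
          · exact hEne 1 3 (by decide) (h0.symm.trans h2)
      · push Not at h0
        exact ⟨0, 1, by decide, fun h => h0.1 (ht _ h), fun h => h0.2 (ht _ h)⟩
  intro z
  obtain ⟨i, j, hij, h1, h2⟩ := two z
  exact ⟨E i, E j, hEne i j hij, h1, h2⟩

theorem cycle_free {a b : ℕ} {p q : Fin a} (hpq : p ≠ q) :
    (edgeBlowUp (cycleGraph 4)).Free (J a b p q) := by
  refine free_J _ (four_edges _ ![0, 1, 2, 3, 0] ?_ ?_) ⟨0⟩ hpq
  · decide
  · decide

theorem path_free {a b : ℕ} {p q : Fin a} (hpq : p ≠ q) :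
    (edgeBlowUp (pathGraph 5)).Free (J a b p q) := by
  refine free_J _ (four_edges _ id ?_ ?_) ⟨0⟩ hpq
  · intro i
    rw [pathGraph_adj]
    left
    rfl
  · intro i j h
    exact Or.inl h

/-! ### The number of triangles of `J` -/

/-- A list of all triangles of `J a b p q`. -/
def triList (a b : ℕ) (p q : Fin a) :
    (Fin a × Fin b) ⊕ (Unit ⊕ Fin b) → Finset (Fin 1 ⊕ (Fin a ⊕ Fin b))
  | Sum.inl (i, j) => {Sum.inl 0, Sum.inr (Sum.inl i), Sum.inr (Sum.inr j)}
  | Sum.inr (Sum.inl _) => {Sum.inl 0, Sum.inr (Sum.inl p), Sum.inr (Sum.inl q)}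
  | Sum.inr (Sum.inr j) => {Sum.inr (Sum.inl p), Sum.inr (Sum.inl q), Sum.inr (Sum.inr j)}

theorem triList_clique {a b : ℕ} {p q : Fin a} (hpq : p ≠ q)
    (x : (Fin a × Fin b) ⊕ (Unit ⊕ Fin b)) : (J a b p q).IsNClique 3 (triList a b p q x) := by
  classical
  have hadj : (J a b p q).Adj (Sum.inr (Sum.inl p)) (Sum.inr (Sum.inl q)) :=
    (adj_aa hpq p q).2 (Or.inl ⟨rfl, rfl⟩)
  rcases x with ⟨i, j⟩ | ⟨⟩ | j
  · exact is3Clique_iff.2 ⟨_, _, _, adj_ca _ _, adj_ca _ _, adj_ab _ _, rfl⟩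
  · exact is3Clique_iff.2 ⟨_, _, _, adj_ca _ _, adj_ca _ _, hadj, rfl⟩
  · exact is3Clique_iff.2 ⟨_, _, _, hadj, adj_ab _ _, adj_ab _ _, rfl⟩

theorem triList_injective {a b : ℕ} {p q : Fin a} :
    Function.Injective (triList a b p q) := by
  rintro (⟨i, j⟩ | ⟨⟩ | j) (⟨i', j'⟩ | ⟨⟩ | j') h
  · have h1 : (Sum.inr (Sum.inl i) : Fin 1 ⊕ (Fin a ⊕ Fin b)) ∈ triList a b p q (Sum.inl (i', j')) := by
      rw [← h]; simp [triList]
    have h2 : (Sum.inr (Sum.inr j) : Fin 1 ⊕ (Fin a ⊕ Fin b)) ∈ triList a b p q (Sum.inl (i', j')) := by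
      rw [← h]; simp [triList]
    simp only [triList, Finset.mem_insert, Finset.mem_singleton, reduceCtorEq, Sum.inr.injEq,
      Sum.inl.injEq, false_or, or_false] at h1 h2
    rw [h1, h2]
  · have h2 : (Sum.inr (Sum.inr j) : Fin 1 ⊕ (Fin a ⊕ Fin b)) ∈
        triList a b p q (Sum.inr (Sum.inl ())) := by
      rw [← h]; simp [triList]
    simp [triList] at h2
  · have h2 : (Sum.inl 0 : Fin 1 ⊕ (Fin a ⊕ Fin b)) ∈ triList a b p q (Sum.inr (Sum.inr j')) := by
      rw [← h]; simp [triList]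
    simp [triList] at h2
  · have h2 : (Sum.inr (Sum.inr j') : Fin 1 ⊕ (Fin a ⊕ Fin b)) ∈
        triList a b p q (Sum.inr (Sum.inl ())) := by
      rw [h]; simp [triList]
    simp [triList] at h2
  · rfl
  · have h2 : (Sum.inl 0 : Fin 1 ⊕ (Fin a ⊕ Fin b)) ∈ triList a b p q (Sum.inr (Sum.inr j')) := by
      rw [← h]; simp [triList]
    simp [triList] at h2
  · have h2 : (Sum.inl 0 : Fin 1 ⊕ (Fin a ⊕ Fin b)) ∈ triList a b p q (Sum.inr (Sum.inr j)) := by
      rw [h]; simp [triList]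
    simp [triList] at h2
  · have h2 : (Sum.inl 0 : Fin 1 ⊕ (Fin a ⊕ Fin b)) ∈ triList a b p q (Sum.inr (Sum.inr j)) := by
      rw [h]; simp [triList]
    simp [triList] at h2
  · have h2 : (Sum.inr (Sum.inr j) : Fin 1 ⊕ (Fin a ⊕ Fin b)) ∈
        triList a b p q (Sum.inr (Sum.inr j')) := by
      rw [← h]; simp [triList]
    simp only [triList, Finset.mem_insert, Finset.mem_singleton, reduceCtorEq, Sum.inr.injEq,
      Sum.inl.injEq, false_or, or_false] at h2
    rw [h2]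

theorem triList_surj {a b : ℕ} {p q : Fin a} (hpq : p ≠ q) {s : Finset (Fin 1 ⊕ (Fin a ⊕ Fin b))}
    (hs : (J a b p q).IsNClique 3 s) : ∃ x, triList a b p q x = s := by
  classical
  obtain ⟨x, y, z, hxy, hxz, hyz, rfl⟩ := is3Clique_iff.1 hs
  rcases x with i | i | i <;> rcases y with j | j | j <;> rcases z with k | k | k
  · exact absurd hxy (adj_cc _ _)
  · exact absurd hxy (adj_cc _ _)
  · exact absurd hxy (adj_cc _ _)
  · exact absurd hxz (adj_cc _ _)
  · refine ⟨Sum.inr (Sum.inl ()), ?_⟩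
    rw [adj_aa hpq] at hyz
    rw [Subsingleton.elim i 0]
    rcases hyz with ⟨rfl, rfl⟩ | ⟨rfl, rfl⟩ <;> (ext w; simp [triList]; try tauto)
  · refine ⟨Sum.inl (j, k), ?_⟩
    rw [Subsingleton.elim i 0]
    ext w; simp [triList]
  · exact absurd hxz (adj_cc _ _)
  · refine ⟨Sum.inl (k, j), ?_⟩
    rw [Subsingleton.elim i 0]
    ext w; simp [triList]; tauto
  · exact absurd hyz (adj_bb _ _)
  · exact absurd hyz (adj_cc _ _)
  · refine ⟨Sum.inr (Sum.inl ()), ?_⟩
    rw [adj_aa hpq] at hxz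
    rw [Subsingleton.elim j 0]
    rcases hxz with ⟨rfl, rfl⟩ | ⟨rfl, rfl⟩ <;> (ext w; simp [triList]; try tauto)
  · refine ⟨Sum.inl (i, k), ?_⟩
    rw [Subsingleton.elim j 0]
    ext w; simp [triList]; tauto
  · refine ⟨Sum.inr (Sum.inl ()), ?_⟩
    rw [adj_aa hpq] at hxy
    rw [Subsingleton.elim k 0]
    rcases hxy with ⟨rfl, rfl⟩ | ⟨rfl, rfl⟩ <;> (ext w; simp [triList]; try tauto)
  · rw [adj_aa hpq] at hxy hxz hyz
    exfalso
    grind
  · refine ⟨Sum.inr (Sum.inr k), ?_⟩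
    rw [adj_aa hpq] at hxy
    rcases hxy with ⟨rfl, rfl⟩ | ⟨rfl, rfl⟩ <;> (ext w; simp [triList]; try tauto)
  · refine ⟨Sum.inl (i, j), ?_⟩
    rw [Subsingleton.elim k 0]
    ext w; simp [triList]; tauto
  · refine ⟨Sum.inr (Sum.inr j), ?_⟩
    rw [adj_aa hpq] at hxz
    rcases hxz with ⟨rfl, rfl⟩ | ⟨rfl, rfl⟩ <;> (ext w; simp [triList]; try tauto)
  · exact absurd hyz (adj_bb _ _)
  · exact absurd hyz (adj_cc _ _)
  · refine ⟨Sum.inl (k, i), ?_⟩
    rw [Subsingleton.elim j 0]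
    ext w; simp [triList]; tauto
  · exact absurd hxz (adj_bb _ _)
  · refine ⟨Sum.inl (j, i), ?_⟩
    rw [Subsingleton.elim k 0]
    ext w; simp [triList]; tauto
  · refine ⟨Sum.inr (Sum.inr i), ?_⟩
    rw [adj_aa hpq] at hyz
    rcases hyz with ⟨rfl, rfl⟩ | ⟨rfl, rfl⟩ <;> (ext w; simp [triList]; try tauto)
  · exact absurd hxz (adj_bb _ _)
  · exact absurd hxy (adj_bb _ _)
  · exact absurd hxy (adj_bb _ _)
  · exact absurd hxy (adj_bb _ _)

theorem triangles_J {a b : ℕ} {p q : Fin a} (hpq : p ≠ q) :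
    triangles (J a b p q) = a * b + (1 + b) := by
  have e : ((Fin a × Fin b) ⊕ (Unit ⊕ Fin b)) ≃
      {s : Finset (Fin 1 ⊕ (Fin a ⊕ Fin b)) // (J a b p q).IsNClique 3 s} :=
    Equiv.ofBijective (fun x => ⟨triList a b p q x, triList_clique hpq x⟩)
      ⟨fun x y h => triList_injective (congrArg Subtype.val h), fun s => by
        obtain ⟨x, hx⟩ := triList_surj hpq s.2
        exact ⟨x, Subtype.ext hx⟩⟩
  unfold triangles
  rw [← Nat.card_congr e]
  simp

/-! ### Degrees -/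

theorem deg_ge {m : ℕ} (hm : 1 ≤ m) {p q : Fin m} (v : Fin 1 ⊕ (Fin m ⊕ Fin m)) :
    m + 1 ≤ ((J m m p q).neighborSet v).ncard := by
  rcases v with i | i | i
  · have h : Set.range (Sum.inr : Fin m ⊕ Fin m → Fin 1 ⊕ (Fin m ⊕ Fin m)) ⊆
        (J m m p q).neighborSet (Sum.inl i) := by
      rintro _ ⟨z, rfl⟩
      exact adj_ca i z
    have h1 := Set.ncard_le_ncard h (Set.toFinite _)
    rw [← Set.image_univ, Set.ncard_image_of_injective _ Sum.inr_injective, Set.ncard_univ,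
      Nat.card_eq_fintype_card, Fintype.card_sum, Fintype.card_fin] at h1
    omega
  · have h : insert (Sum.inl 0) (Set.range (fun j : Fin m =>
        (Sum.inr (Sum.inr j) : Fin 1 ⊕ (Fin m ⊕ Fin m)))) ⊆
        (J m m p q).neighborSet (Sum.inr (Sum.inl i)) := by
      rintro _ (rfl | ⟨z, rfl⟩)
      · exact adj_ac _ _
      · exact adj_ab _ _
    have h1 := Set.ncard_le_ncard h (Set.toFinite _)
    rw [Set.ncard_insert_of_notMem (by simp), ← Set.image_univ, Set.ncard_image_of_injective,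
      Set.ncard_univ, Nat.card_eq_fintype_card, Fintype.card_fin] at h1
    · exact h1
    · intro x y hxy
      simpa using hxy
  · have h : insert (Sum.inl 0) (Set.range (fun j : Fin m =>
        (Sum.inr (Sum.inl j) : Fin 1 ⊕ (Fin m ⊕ Fin m)))) ⊆
        (J m m p q).neighborSet (Sum.inr (Sum.inr i)) := by
      rintro _ (rfl | ⟨z, rfl⟩)
      · exact adj_ac _ _
      · exact adj_ba _ _
    have h1 := Set.ncard_le_ncard h (Set.toFinite _)
    rw [Set.ncard_insert_of_notMem (by simp), ← Set.image_univ, Set.ncard_image_of_injective,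
      Set.ncard_univ, Nat.card_eq_fintype_card, Fintype.card_fin] at h1
    · exact h1
    · intro x y hxy
      simpa using hxy

theorem deg_b {a b : ℕ} {p q : Fin a} (j : Fin b) :
    ((J a b p q).neighborSet (Sum.inr (Sum.inr j))).ncard ≤ a + 1 := by
  have h : (J a b p q).neighborSet (Sum.inr (Sum.inr j)) ⊆
      insert (Sum.inl 0) (Set.range (fun j : Fin a =>
        (Sum.inr (Sum.inl j) : Fin 1 ⊕ (Fin a ⊕ Fin b)))) := by
    rintro (i | i | i) hi
    · left
      rw [Subsingleton.elim i 0]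
    · right
      exact ⟨i, rfl⟩
    · exact absurd hi (adj_bb _ _)
  have h1 := Set.ncard_le_ncard h (Set.toFinite _)
  have h2 := Set.ncard_insert_le (Sum.inl 0) (Set.range (fun j : Fin a =>
        (Sum.inr (Sum.inl j) : Fin 1 ⊕ (Fin a ⊕ Fin b))))
  have h3 : (Set.range (fun j : Fin a =>
        (Sum.inr (Sum.inl j) : Fin 1 ⊕ (Fin a ⊕ Fin b)))).ncard ≤ a := by
    rw [← Set.image_univ]
    refine (Set.ncard_image_le (Set.toFinite _)).trans ?_
    rw [Set.ncard_univ, Nat.card_eq_fintype_card, Fintype.card_fin]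
  omega

theorem not_iso {m : ℕ} (hm : 1 ≤ m) {p q : Fin m} {p' q' : Fin (m - 1)} :
    ¬ Nonempty (J (m - 1) (m + 1) p' q' ≃g J m m p q) := by
  rintro ⟨f⟩
  have h1 := deg_ge (p := p) (q := q) hm (f (Sum.inr (Sum.inr 0)))
  have h2 := deg_b (p := p') (q := q') (b := m + 1) 0
  have h3 : ((J m m p q).neighborSet (f (Sum.inr (Sum.inr 0)))).ncard =
      ((J (m - 1) (m + 1) p' q').neighborSet (Sum.inr (Sum.inr 0))).ncard := by
    rw [← Nat.card_coe_set_eq, ← Nat.card_coe_set_eq]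
    exact (Nat.card_congr (f.mapNeighborSet _)).symm
  omega

/-! ### The result -/

theorem swap_iso (m : ℕ) (p q : Fin m) :
    Nonempty ((joinBip 1 m m ⊔ edge (Sum.inr (Sum.inr p)) (Sum.inr (Sum.inr q))) ≃g J m m p q) := by
  refine ⟨⟨Equiv.sumCongr (Equiv.refl _) (Equiv.sumComm _ _), ?_⟩⟩
  rintro (i | i | i) (j | j | j) <;>
    simp [J, joinBip, edge_adj]

theorem not_unique {W : Type} (F : SimpleGraph W)
    (hF : ∀ (a b : ℕ) (p q : Fin a), p ≠ q → F.Free (J a b p q)) (m : ℕ) (hm : 3 ≤ m)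
    (p q : Fin m) (hpq : p ≠ q) {V : Type} (G₀ : SimpleGraph V) (e : Nonempty (G₀ ≃g J m m p q)) :
    ¬ IsUniqueExtremal (2 * m + 1) F G₀ := by
  rintro ⟨-, h⟩
  obtain ⟨e⟩ := e
  let p' : Fin (m - 1) := ⟨0, by omega⟩
  let q' : Fin (m - 1) := ⟨1, by omega⟩
  have hpq' : p' ≠ q' := by
    intro h
    have := congrArg Fin.val h
    simp [p', q'] at this
  obtain ⟨G', ⟨f⟩⟩ := exists_fin (J (m - 1) (m + 1) p' q') (2 * m + 1) (by
    simp only [Fintype.card_sum, Fintype.card_fin]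
    omega)
  obtain ⟨-, h1⟩ := h G' (free_iso f (hF _ _ _ _ hpq'))
  have h2 : triangles G' = triangles G₀ := by
    rw [← triangles_iso f, triangles_iso e, triangles_J hpq', triangles_J hpq]
    obtain ⟨r, rfl⟩ : ∃ r, m = r + 1 := ⟨m - 1, by omega⟩
    rw [Nat.add_sub_cancel]
    ring
  obtain ⟨g⟩ := h1 h2
  exact not_iso (by omega) ⟨(f.trans g).trans e⟩

theorem part_a (n : ℕ) (hn : Odd n) (h7 : 7 ≤ n) {W : Type} (F : SimpleGraph W)
    (hF : ∀ (a b : ℕ) (p q : Fin a), p ≠ q → F.Free (J a b p q))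
    (x y : Fin (2 - 1) ⊕ (Fin ((n - 2 + 1) / 2) ⊕ Fin ((n - 2 + 2) / 2))) (hxy : SamePart x y) :
    ¬ IsUniqueExtremal n F (H₂ n 2 ⊔ edge x y) := by
  obtain ⟨m, rfl⟩ := hn
  have e1 : (2 * m + 1 - 2 + 1) / 2 = m := by omega
  have e2 : (2 * m + 1 - 2 + 2) / 2 = m := by omega
  have hm : 3 ≤ m := by omega
  unfold H₂
  revert x y
  rw [e1, e2]
  rintro x y ⟨hne, ⟨i, j, rfl, rfl⟩ | ⟨i, j, rfl, rfl⟩⟩
  · have hij : i ≠ j := fun h => hne (by rw [h])
    exact not_unique F hF m hm i j hij _ ⟨Iso.refl⟩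
  · have hij : i ≠ j := fun h => hne (by rw [h])
    exact not_unique F hF m hm i j hij _ (swap_iso m i j)

/-- For all odd `n ≥ 7` the graph `H⁺(n, 2, 2)` is not the unique extremal graph, neither for the edge
blow-up of `C_4` nor for the edge blow-up of the path with four edges; so the conjecture is false. -/
theorem result :
    (∀ n : ℕ, Odd n → 7 ≤ n → ∀ x y, SamePart x y →
      ¬ IsUniqueExtremal n (edgeBlowUp (cycleGraph 4)) (H₂ n 2 ⊔ edge x y) ∧
      ¬ IsUniqueExtremal n (edgeBlowUp (pathGraph 5)) (H₂ n 2 ⊔ edge x y)) ∧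
    ¬ Q1 := by
  have main : ∀ n : ℕ, Odd n → 7 ≤ n → ∀ x y, SamePart x y →
      ¬ IsUniqueExtremal n (edgeBlowUp (cycleGraph 4)) (H₂ n 2 ⊔ edge x y) ∧
      ¬ IsUniqueExtremal n (edgeBlowUp (pathGraph 5)) (H₂ n 2 ⊔ edge x y) := by
    intro n hn h7 x y hxy
    exact ⟨part_a n hn h7 _ (fun a b p q h => cycle_free h) x y hxy,
      part_a n hn h7 _ (fun a b p q h => path_free h) x y hxy⟩
  refine ⟨main, fun h => ?_⟩
  obtain ⟨n₀, hn₀⟩ := h 4 le_rfl
  obtain ⟨-, h2⟩ := hn₀ (2 * (n₀ + 3) + 1) (by omega)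
  obtain ⟨x, y, hxy, h3, -⟩ := h2 (by decide)
  exact (main (2 * (n₀ + 3) + 1) ⟨_, rfl⟩ (by omega) x y hxy).1 h3

end Pool.Agent.Results.MP_5b3c48_co.NotUnique
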